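import Pool.Agent.helper88.HT.Spec

/-!
# Project HT (MP_069684), row ht:QCR

Quasi-polynomial size circuits without hazards on few unknown bits.
-/

set_option autoImplicit false

namespace Pool.Agent.helper88.HT

open Pool.Agent.helper38.Neg Pool.Agent.helper55.NT

private lemma QCR_unk {n : ℕ} (a : Fin n → Option Bool) : unk a ≤ n := by
  unfold unk
  calc (Finset.univ.filter fun i => a i = none).card ≤ (Finset.univ : Finset (Fin n)).card :=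
        Finset.card_filter_le _ _
    _ = n := by rw [Finset.card_univ, Fintype.card_fin]

private lemma QCR_hf (b : Bool) (k : ℕ) {n s : ℕ} (C : Circuit n s) (o : Fin (n + s))
    (h : HazardFree b (min k n) C o) : HazardFree b k C o :=
  fun a ha hx => h a (le_min ha (QCR_unk a)) hx

/-- the arithmetic -/
private lemma QCR_bound (n s κ lam c k₀ : ℕ) (hκ : κ ≤ c * lg n ^ c) (hl : lam ≤ c * lg n ^ c)
    (hs : s ≤ 2 ^ (k₀ * lg n ^ k₀)) :
    (κ * (lg n + 1) + 1) * 2 ^ (κ + 2) * (2 * n + 2) ^ lam * (6 * n ^ 2 + s + 6) ≤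
      2 ^ ((6 * c + k₀ + 20) * lg n ^ (6 * c + k₀ + 20)) := by
  obtain ⟨L, hL⟩ : ∃ L, L = lg n := ⟨_, rfl⟩
  have hL1 : 1 ≤ L := by
    rw [hL]
    exact lg_pos n
  have hn : n + 2 ≤ 2 ^ (L + 1) := by
    rw [hL]
    exact (lt_two_pow_lg n).le
  rw [← hL] at hκ hl hs ⊢
  obtain ⟨K, hK⟩ : ∃ K, K = 6 * c + k₀ + 20 := ⟨_, rfl⟩
  rw [← hK]
  have p1 : L ^ (c + 1) ≤ L ^ K := Nat.pow_le_pow_right hL1 (by omega)
  have p2 : L ^ c ≤ L ^ K := Nat.pow_le_pow_right hL1 (by omega)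
  have p3 : L ^ k₀ ≤ L ^ K := Nat.pow_le_pow_right hL1 (by omega)
  have p4 : L ≤ L ^ K := Nat.le_self_pow (by omega) _
  have p5 : 1 ≤ L ^ K := Nat.one_le_pow _ _ hL1
  have p6 : L ^ (c + 1) = L ^ c * L := pow_succ L c
  -- the four factors
  have e1 : κ * (L + 1) ≤ 2 * c * L ^ K := by
    calc κ * (L + 1) ≤ c * L ^ c * (2 * L) := Nat.mul_le_mul hκ (by omega)
      _ = 2 * c * L ^ (c + 1) := by rw [p6]; ring
      _ ≤ 2 * c * L ^ K := Nat.mul_le_mul_left _ p1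
  have f1 : κ * (L + 1) + 1 ≤ 2 ^ (2 * c * L ^ K) := by
    calc κ * (L + 1) + 1 ≤ 2 ^ (κ * (L + 1)) := Nat.lt_two_pow_self
      _ ≤ 2 ^ (2 * c * L ^ K) := Nat.pow_le_pow_right (by norm_num) e1
  have f2 : 2 ^ (κ + 2) ≤ 2 ^ (c * L ^ K + 2 * L ^ K) := by
    apply Nat.pow_le_pow_right (by norm_num)
    have : c * L ^ c ≤ c * L ^ K := Nat.mul_le_mul_left _ p2
    omega
  have f3 : (2 * n + 2) ^ lam ≤ 2 ^ (3 * c * L ^ K) := by
    have h1 : 2 * n + 2 ≤ 2 ^ (L + 2) := by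
      have : 2 ^ (L + 2) = 2 * 2 ^ (L + 1) := by rw [pow_succ' 2 (L + 1)]
      omega
    calc (2 * n + 2) ^ lam ≤ (2 ^ (L + 2)) ^ lam := Nat.pow_le_pow_left h1 _
      _ = 2 ^ ((L + 2) * lam) := by rw [pow_mul]
      _ ≤ 2 ^ (3 * c * L ^ K) := by
        apply Nat.pow_le_pow_right (by norm_num)
        calc (L + 2) * lam ≤ (3 * L) * (c * L ^ c) := Nat.mul_le_mul (by omega) hl
          _ = 3 * c * L ^ (c + 1) := by rw [p6]; ring
          _ ≤ 3 * c * L ^ K := Nat.mul_le_mul_left _ p1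
  have f4 : 6 * n ^ 2 + s + 6 ≤ 2 ^ (k₀ * L ^ K + 8 * L ^ K) := by
    have h1 : 6 * n ^ 2 + 6 ≤ 2 ^ (2 * L + 5) := by
      have h2 : (n + 2) ^ 2 ≤ (2 ^ (L + 1)) ^ 2 := Nat.pow_le_pow_left hn 2
      have h3 : (2 ^ (L + 1)) ^ 2 * 8 = 2 ^ (2 * L + 5) := by
        rw [← pow_mul, show (8 : ℕ) = 2 ^ 3 by norm_num, ← pow_add]
        congr 1
        ring
      nlinarith
    have h4 : s ≤ 2 ^ (k₀ * L ^ K) :=
      hs.trans (Nat.pow_le_pow_right (by norm_num) (Nat.mul_le_mul_left _ p3))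
    calc 6 * n ^ 2 + s + 6 ≤ 2 ^ (2 * L + 5) + 2 ^ (k₀ * L ^ K) := by omega
      _ ≤ 2 ^ (2 * L + 5 + k₀ * L ^ K + 1) := two_pow_add _ _
      _ ≤ 2 ^ (k₀ * L ^ K + 8 * L ^ K) := by
        apply Nat.pow_le_pow_right (by norm_num)
        omega
  calc (κ * (L + 1) + 1) * 2 ^ (κ + 2) * (2 * n + 2) ^ lam * (6 * n ^ 2 + s + 6)
      ≤ 2 ^ (2 * c * L ^ K) * 2 ^ (c * L ^ K + 2 * L ^ K) * 2 ^ (3 * c * L ^ K) *
          2 ^ (k₀ * L ^ K + 8 * L ^ K) :=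
        Nat.mul_le_mul (Nat.mul_le_mul (Nat.mul_le_mul f1 f2) f3) f4
    _ = 2 ^ ((6 * c + k₀ + 10) * L ^ K) := by
        rw [← pow_add, ← pow_add, ← pow_add]
        congr 1
        ring
    _ ≤ 2 ^ (K * L ^ K) := by
        apply Nat.pow_le_pow_right (by norm_num)
        apply Nat.mul_le_mul_right
        omega

theorem QCR (h1 : UP_stmt) : QCR_stmt := by
  intro b k l c hk hl A hA
  obtain ⟨k₀, h0⟩ := hA
  refine ⟨6 * c + k₀ + 20, fun n => ?_⟩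
  obtain ⟨s, hs, C, o, hC⟩ := h0 n
  obtain ⟨s', hs', C', o', e1, e2, e3⟩ := h1 b n s (min (k n) n) (min (l n) n) C o
  refine ⟨s', hs'.trans (QCR_bound n s _ _ c k₀ (hk n) (hl n) hs), C', o', ?_,
    QCR_hf b (k n) C' o' e2, QCR_hf (!b) (l n) C' o' e3⟩
  intro x
  rw [e1 x]
  exact hC x

end Pool.Agent.helper88.HT
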